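import Mathlib
import Pool.Agent.Lib.MP_6a2cdd_al.Join

set_option autoImplicit false

universe u

namespace Pool.Agent.Results.MP_6a2cdd_al.NotCoxeter

open Pool.Agent.Lib.MP_6a2cdd_al

/-- the elementary abelian group of order eight -/
abbrev M8 : Type := Multiplicative (ZMod 2 × ZMod 2 × ZMod 2)

theorem K_mul : ∀ p q x y : M8, (x = 1 ∨ x = p ∨ x = q ∨ x = p * q) →
    (y = 1 ∨ y = p ∨ y = q ∨ y = p * q) →
    (x * y = 1 ∨ x * y = p ∨ x * y = q ∨ x * y = p * q) := by
  intro p q x y hx hy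
  have hp := elem2 p
  have hq := elem2 q
  have hpq : q * p = p * q := mul_comm q p
  rcases hx with rfl | rfl | rfl | rfl <;> rcases hy with rfl | rfl | rfl | rfl
  · simp
  · simp
  · simp
  · simp
  · simp
  · simp [hp]
  · simp
  · rw [← mul_assoc, hp, one_mul]; simp
  · simp
  · rw [hpq]; simp
  · simp [hq]
  · rw [mul_comm p x, ← mul_assoc, hq, one_mul]; simp
  · simp
  · rw [mul_comm y q, mul_assoc, hp, mul_one]; simp
  · rw [mul_assoc, hq, mul_one]; simp
  · left
    exact elem2 _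

theorem no_two_add : ∀ p q : ZMod 2 × ZMod 2 × ZMod 2,
    ¬ ((((1, 0, 1) : ZMod 2 × ZMod 2 × ZMod 2) = 0 ∨ ((1, 0, 1) : ZMod 2 × ZMod 2 × ZMod 2) = p ∨
        ((1, 0, 1) : ZMod 2 × ZMod 2 × ZMod 2) = q ∨
        ((1, 0, 1) : ZMod 2 × ZMod 2 × ZMod 2) = p + q) ∧
      (((0, 1, 1) : ZMod 2 × ZMod 2 × ZMod 2) = 0 ∨ ((0, 1, 1) : ZMod 2 × ZMod 2 × ZMod 2) = p ∨
        ((0, 1, 1) : ZMod 2 × ZMod 2 × ZMod 2) = q ∨
        ((0, 1, 1) : ZMod 2 × ZMod 2 × ZMod 2) = p + q) ∧
      (((1, 0, 0) : ZMod 2 × ZMod 2 × ZMod 2) = 0 ∨ ((1, 0, 0) : ZMod 2 × ZMod 2 × ZMod 2) = p ∨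
        ((1, 0, 0) : ZMod 2 × ZMod 2 × ZMod 2) = q ∨
        ((1, 0, 0) : ZMod 2 × ZMod 2 × ZMod 2) = p + q)) := by
  decide

theorem no_two (p q : M8) :
    ¬ (((Multiplicative.ofAdd ((1, 0, 1) : ZMod 2 × ZMod 2 × ZMod 2) : M8) = 1 ∨
        (Multiplicative.ofAdd ((1, 0, 1) : ZMod 2 × ZMod 2 × ZMod 2) : M8) = p ∨
        (Multiplicative.ofAdd ((1, 0, 1) : ZMod 2 × ZMod 2 × ZMod 2) : M8) = q ∨
        (Multiplicative.ofAdd ((1, 0, 1) : ZMod 2 × ZMod 2 × ZMod 2) : M8) = p * q) ∧
      ((Multiplicative.ofAdd ((0, 1, 1) : ZMod 2 × ZMod 2 × ZMod 2) : M8) = 1 ∨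
        (Multiplicative.ofAdd ((0, 1, 1) : ZMod 2 × ZMod 2 × ZMod 2) : M8) = p ∨
        (Multiplicative.ofAdd ((0, 1, 1) : ZMod 2 × ZMod 2 × ZMod 2) : M8) = q ∨
        (Multiplicative.ofAdd ((0, 1, 1) : ZMod 2 × ZMod 2 × ZMod 2) : M8) = p * q) ∧
      ((Multiplicative.ofAdd ((1, 0, 0) : ZMod 2 × ZMod 2 × ZMod 2) : M8) = 1 ∨
        (Multiplicative.ofAdd ((1, 0, 0) : ZMod 2 × ZMod 2 × ZMod 2) : M8) = p ∨
        (Multiplicative.ofAdd ((1, 0, 0) : ZMod 2 × ZMod 2 × ZMod 2) : M8) = q ∨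
        (Multiplicative.ofAdd ((1, 0, 0) : ZMod 2 × ZMod 2 × ZMod 2) : M8) = p * q)) :=
  no_two_add (Multiplicative.toAdd p) (Multiplicative.toAdd q)

theorem rho_xb (m : ℕ) (b : Fin (m + 2) → Bool) :
    rho (m + 2) (xb (m + 2) b) = rhoFun (m + 2) (0, b 0) * rhoFun (m + 2) (1, b 1) := by
  have hg : ∀ v, rho (m + 2) (gen _ v) = rhoFun (m + 2) v := fun v => toG_gen _ _ _ _ v
  rw [xb, map_list_prod, List.map_map, List.finRange_succ, List.finRange_succ]
  simp only [List.map_cons, List.map_map, List.prod_cons, Function.comp_apply, hg]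
  have : (List.map ((⇑(rho (m + 2)) ∘ (fun i => gen (joinGraph (m + 2)) (i, b i))) ∘
      Fin.succ ∘ Fin.succ) (List.finRange m)).prod = 1 := by
    apply List.prod_eq_one
    intro x hx
    obtain ⟨i, -, rfl⟩ := List.mem_map.1 hx
    simp only [Function.comp_apply, hg]
    simp [rhoFun]
  rw [this, mul_one]
  rfl

/-- For every `n ≥ 2` there is a finite graph `Γ` of clique number `n` and a set `S` of products of
`n` pairwise commuting reflections of `C(Γ)` such that the subgroup generated by `S` is not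
isomorphic to any right-angled Coxeter group. -/
theorem result (n : ℕ) (hn : 2 ≤ n) :
    ∃ (V : Type) (_ : Fintype V) (Γ : SimpleGraph V), Γ.cliqueNum = n ∧
      ∃ S : Set (RACG Γ), (∀ x ∈ S, IsProdCommReflections Γ n x) ∧
        ∀ (W : Type u) (Δ : SimpleGraph W), IsEmpty (Subgroup.closure S ≃* RACG Δ) := by
  obtain ⟨m, rfl⟩ : ∃ m, n = m + 2 := ⟨n - 2, by omega⟩
  refine ⟨Fin (m + 2) × Bool, inferInstance, joinGraph (m + 2), cliqueNum_joinGraph _,
    Set.range (xb (m + 2)), ?_, ?_⟩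
  · rintro _ ⟨b, rfl⟩
    exact xb_spec _ b
  · intro W Δ
    refine ⟨fun e => ?_⟩
    have hmem : ∀ x : RACG Δ, ((e.symm x : HH (m + 2)) : RACG (joinGraph (m + 2))) ∈ HH (m + 2) :=
      fun x => (e.symm x).2
    have hne : ∀ x : RACG Δ, x ≠ 1 → ((e.symm x : HH (m + 2)) : RACG (joinGraph (m + 2))) ≠ 1 := by
      intro x hx h
      apply hx
      have h1 : (e.symm x : HH (m + 2)) = 1 := Subtype.ext h
      rw [← e.apply_symm_apply x]
      exact (congrArg e h1).trans (map_one e)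
    have hsq : ∀ x : RACG Δ, x * x = 1 →
        ((e.symm x : HH (m + 2)) : RACG (joinGraph (m + 2))) *
        ((e.symm x : HH (m + 2)) : RACG (joinGraph (m + 2))) = 1 := by
      intro x hx
      have h1 : (e.symm x : HH (m + 2)) * e.symm x = 1 := by
        rw [← map_mul, hx, map_one]
      exact congrArg Subtype.val h1
    have hinj : ∀ x y : RACG Δ, ((e.symm x : HH (m + 2)) : RACG (joinGraph (m + 2))) =
        ((e.symm y : HH (m + 2)) : RACG (joinGraph (m + 2))) → x = y := by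
      intro x y h
      exact e.symm.injective (Subtype.ext h)
    have hmul : ∀ x y : RACG Δ, ((e.symm (x * y) : HH (m + 2)) : RACG (joinGraph (m + 2))) =
        ((e.symm x : HH (m + 2)) : RACG (joinGraph (m + 2))) *
        ((e.symm y : HH (m + 2)) : RACG (joinGraph (m + 2))) := by
      intro x y
      exact congrArg Subtype.val (map_mul e.symm x y)
    -- at most two vertices
    have few : ∀ a b c : W, a ≠ b → b ≠ c → a ≠ c → False := by
      apply few_vertices Δ
      · intro x y hx hy hx2 hy2 hxy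
        apply hinj
        apply comm_eq (m + 2) (hmem x) (hmem y) (hne x hx) (hne y hy) (hsq x hx2) (hsq y hy2)
        have h1 := hmul x y
        rw [hxy.eq, hmul y x] at h1
        exact h1.symm
      · intro x y x' y' hx hy hx' hy' hx2 hy2 hx2' hy2'
        apply hinj
        rw [hmul, hmul, hmul, hmul, hmul, hmul]
        exact prod_comm' (m + 2) (hmem x) (hmem y) (hmem x') (hmem y') (hne x hx) (hne y hy)
          (hne x' hx') (hne y' hy') (hsq x hx2) (hsq y hy2) (hsq x' hx2') (hsq y' hy2')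
    -- the map to an elementary abelian group of order eight
    let r : RACG Δ →* M8 := ((rho (m + 2)).comp (Subgroup.subtype (HH (m + 2)))).comp
      (e.symm.toMonoidHom)
    obtain ⟨p, q, hpq⟩ : ∃ p q : M8, ∀ w : W, r (gen Δ w) = p ∨ r (gen Δ w) = q := by
      by_cases h : ∃ a b : W, a ≠ b
      · obtain ⟨a, b, hab⟩ := h
        refine ⟨r (gen Δ a), r (gen Δ b), fun w => ?_⟩
        by_cases h1 : w = a
        · left; rw [h1]
        · by_cases h2 : w = b
          · right; rw [h2]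
          · exact absurd (few a b w hab (Ne.symm h2) (Ne.symm h1)) id
      · push Not at h
        by_cases hW : Nonempty W
        · obtain ⟨a⟩ := hW
          exact ⟨r (gen Δ a), r (gen Δ a), fun w => by left; rw [h w a]⟩
        · exact ⟨1, 1, fun w => absurd ⟨w⟩ hW⟩
    have hK : ∀ x : RACG Δ, r x = 1 ∨ r x = p ∨ r x = q ∨ r x = p * q := by
      let K : Subgroup M8 :=
        { carrier := {x | x = 1 ∨ x = p ∨ x = q ∨ x = p * q}
          mul_mem' := fun {x y} hx hy => K_mul p q x y hx hy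
          one_mem' := Or.inl rfl
          inv_mem' := fun {x} hx => by
            have : x⁻¹ = x := inv_eq_of_mul_eq_one_left (elem2 x)
            rw [this]
            exact hx }
      intro x
      have h1 := PresentedGroup.generated_by (racgRels Δ) (K.comap r) (fun w => by
        change r (gen Δ w) ∈ K
        rcases hpq w with h | h
        · exact Or.inr (Or.inl h)
        · exact Or.inr (Or.inr (Or.inl h))) x
      exact h1
    have hall : ∀ b : Fin (m + 2) → Bool, rho (m + 2) (xb (m + 2) b) = 1 ∨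
        rho (m + 2) (xb (m + 2) b) = p ∨ rho (m + 2) (xb (m + 2) b) = q ∨
        rho (m + 2) (xb (m + 2) b) = p * q := by
      intro b
      have hb : xb (m + 2) b ∈ HH (m + 2) := Subgroup.subset_closure ⟨b, rfl⟩
      have h1 := hK (e ⟨xb (m + 2) b, hb⟩)
      have h2 : r (e ⟨xb (m + 2) b, hb⟩) = rho (m + 2) (xb (m + 2) b) := by
        change rho (m + 2) ((e.symm (e ⟨xb (m + 2) b, hb⟩) : HH (m + 2)) : RACG _) = _
        rw [MulEquiv.symm_apply_apply]
      rwa [h2] at h1
    have e0 : rho (m + 2) (xb (m + 2) (fun _ => false)) = Multiplicative.ofAdd (1, 0, 1) := by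
      rw [rho_xb]
      simp [rhoFun, ← ofAdd_add]
    have e1 : rho (m + 2) (xb (m + 2) (fun i => decide (i = 0))) =
        Multiplicative.ofAdd (0, 1, 1) := by
      rw [rho_xb]
      simp [rhoFun, ← ofAdd_add]
    have e2 : rho (m + 2) (xb (m + 2) (fun i => decide (i = 1))) =
        Multiplicative.ofAdd (1, 0, 0) := by
      rw [rho_xb]
      simp [rhoFun, ← ofAdd_add]
    have h0 := hall (fun _ => false)
    have h1 := hall (fun i => decide (i = 0))
    have h2 := hall (fun i => decide (i = 1))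
    rw [e0] at h0
    rw [e1] at h1
    rw [e2] at h2
    exact no_two p q ⟨h0, h1, h2⟩

end Pool.Agent.Results.MP_6a2cdd_al.NotCoxeter
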